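import Pool.Agent.H534R3.XApp
import Pool.Agent.H534R3.PiThree

/-!
# Differences of sets of normal vectors

For all multiplicatively independent integers `a, b > 1` and every `k`, the set of the real
polynomials `g` of degree at most `k` such that `g(n) a ^ n` is uniformly distributed modulo one and
`g(n) b ^ n` is not, is complete for the class of the differences of two sets of the third
multiplicative class.

The membership holds for every sequence that depends continuously on a parameter. For the hardness,
the reals are embedded as the constant polynomials, and there is a continuous map from the Baire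
space to the reals that reduces independently the convergence to infinity along the odd and the even
indices to the normality in the bases `a` and `b`.
-/

set_option autoImplicit false

open Filter Topology

namespace Pool.Agent.Results.MP_df8ac3_lc.DTwoComplete

/-- The sequence `x` is uniformly distributed modulo one. -/
def IsUD (x : ℕ → ℝ) : Prop := ∀ u v : ℝ, 0 ≤ u → u < v → v ≤ 1 →
  Tendsto
    (fun N : ℕ =>
      (((Finset.range N).filter (fun n => u ≤ Int.fract (x n) ∧ Int.fract (x n) < v)).card : ℝ)
        / (N : ℝ))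
    atTop (nhds (v - u))

/-- The set `N_{a,k}` in the space of the coefficient vectors of the real polynomials of degree at
most `k`: the vectors `g` such that the sequence `(g₀ + g₁ n + ⋯ + g_k n ^ k) a ^ n` is uniformly
distributed modulo one. -/
def NormalVec (a k : ℕ) : Set (EuclideanSpace ℝ (Fin (k + 1))) :=
  {g | IsUD (fun n => (∑ i : Fin (k + 1), g i * (n : ℝ) ^ (i : ℕ)) * (a : ℝ) ^ n)}

/-- `A` is a countable intersection of countable unions of closed sets. In a metrizable space this
is the third multiplicative Borel class. -/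
def IsPiThree {X : Type} [TopologicalSpace X] (A : Set X) : Prop :=
  ∃ F : ℕ → ℕ → Set X, (∀ i j, IsClosed (F i j)) ∧ A = ⋂ i, ⋃ j, F i j

/-- `D` is the difference of two sets of the third multiplicative class. -/
def IsDTwo {X : Type} [TopologicalSpace X] (D : Set X) : Prop :=
  ∃ A B : Set X, IsPiThree A ∧ IsPiThree B ∧ D = A \ B

/-- `D` is complete for the class of the differences of two sets of the third multiplicative class:
it belongs to the class and its complement does not. -/
def IsDTwoComplete {X : Type} [TopologicalSpace X] (D : Set X) : Prop :=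
  IsDTwo D ∧ ¬ IsDTwo Dᶜ

theorem piThree_preimage {X Y : Type} [TopologicalSpace X] [TopologicalSpace Y] {f : X → Y}
    (hf : Continuous f) {A : Set Y} (hA : IsPiThree A) : IsPiThree (f ⁻¹' A) := by
  obtain ⟨F, hF, rfl⟩ := hA
  refine ⟨fun i j => f ⁻¹' F i j, fun i j => (hF i j).preimage hf, ?_⟩
  simp only [Set.preimage_iInter, Set.preimage_iUnion]

theorem isUD_iff (x : ℕ → ℝ) : IsUD x ↔ Pool.Agent.H534R3.UDist.UD x := by
  constructor
  · intro h s t hs hst ht
    rcases hst.eq_or_lt with hst | hst
    · subst hst
      refine Tendsto.congr (fun N => ?_) (by simpa using tendsto_const_nhds)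
      rw [Finset.filter_false_of_mem]
      · simp
      · intro n _ hn
        exact absurd hn.2 (not_lt.2 hn.1)
    · exact h s t hs hst ht
  · intro h s t hs hst ht
    exact h s t hs hst.le ht

/-- The embedding of the reals as the constant polynomials. -/
noncomputable def cst (k : ℕ) (ξ : ℝ) : EuclideanSpace ℝ (Fin (k + 1)) :=
  WithLp.toLp 2 (fun i => if i = 0 then ξ else 0)

theorem cst_continuous (k : ℕ) : Continuous (cst k) := by
  unfold cst
  refine (PiLp.continuous_toLp 2 _).comp ?_
  refine continuous_pi fun i => ?_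
  by_cases hi : i = 0
  · simp only [hi, if_true]
    exact continuous_id
  · simp only [hi, if_false]
    exact continuous_const

theorem cst_mem (a k : ℕ) (ξ : ℝ) :
    cst k ξ ∈ NormalVec a k ↔ IsUD (fun n => ξ * (a : ℝ) ^ n) := by
  have h1 : (fun n : ℕ => (∑ i : Fin (k + 1), (cst k ξ) i * (n : ℝ) ^ (i : ℕ)) * (a : ℝ) ^ n) =
      fun n : ℕ => ξ * (a : ℝ) ^ n := by
    funext n
    rw [Finset.sum_eq_single (0 : Fin (k + 1))]
    · simp [cst]
    · intro i _ hi
      simp [cst, hi]
    · intro h
      exact absurd (Finset.mem_univ _) h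
  unfold NormalVec
  rw [Set.mem_ofPred_eq, h1]

theorem result (a b : ℕ) (ha : 1 < a) (hb : 1 < b)
    (hab : ∀ m n : ℕ, 0 < m → 0 < n → a ^ m ≠ b ^ n) (k : ℕ) :
    IsDTwoComplete (NormalVec a k \ NormalVec b k) := by
  have hN : ∀ c : ℕ, IsPiThree (NormalVec c k) := by
    intro c
    obtain ⟨F, hF, hFe⟩ := Pool.Agent.H534R3.UDist.ud_piThree
      (fun (g : EuclideanSpace ℝ (Fin (k + 1))) (n : ℕ) =>
        (∑ i : Fin (k + 1), g i * (n : ℝ) ^ (i : ℕ)) * (c : ℝ) ^ n) (fun n => by fun_prop)
    refine ⟨F, hF, ?_⟩
    rw [← hFe]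
    ext g
    exact isUD_iff _
  refine ⟨⟨_, _, hN a, hN b, rfl⟩, ?_⟩
  rintro ⟨A, B, hA, hB, hAB⟩
  obtain ⟨g, hg, hga, hgb⟩ := Pool.Agent.H534R3.Rota.reduce_pair a b ha hb hab
  have hc : Continuous fun w => cst k (g w) := (cst_continuous k).comp hg
  obtain ⟨F, hF, hFe⟩ := piThree_preimage hc hA
  obtain ⟨F', hF', hFe'⟩ := piThree_preimage hc hB
  refine Pool.Agent.H534R3.Rota.no_dual
    (fun w t => ∀ e, ∃ J, ∀ j, J ≤ j → Pool.Agent.H534R3.Rota.ty j = t → e ≤ w j)
    (fun w t => Iff.rfl) F F' hF hF' ?_
  rw [← hFe, ← hFe', ← Set.preimage_sdiff, ← hAB, Set.preimage_compl]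
  congr 1
  ext w
  change _ ↔ cst k (g w) ∈ NormalVec a k ∧ cst k (g w) ∉ NormalVec b k
  rw [cst_mem, cst_mem, isUD_iff, isUD_iff, hga, hgb]
  rfl

end Pool.Agent.Results.MP_df8ac3_lc.DTwoComplete
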